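import Mathlib

namespace Pool.Agent.Results.MP_521650_an.Everything

open Filter Topology Set

/-- the composition `φ_{a₁} ∘ ⋯ ∘ φ_{aₙ}` -/
def word {l : ℕ} (φ : Fin l → ℝ → ℝ) (a : List (Fin l)) : ℝ → ℝ := a.foldr (fun i f => φ i ∘ f) id

/-- the set `W_s(z)` -/
def W {l : ℕ} (φ : Fin l → ℝ → ℝ) (X : Set ℝ) (s z : ℝ) : Set ℝ :=
  {x | {a : List (Fin l) | |x - word φ a z| ≤ Metric.diam (word φ a '' X) ^ s}.Infinite}

noncomputable def φ (i : Fin 8) (x : ℝ) : ℝ := if i = 7 then 18 - 2 / 3 * x else 2 / 3 * x + i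

lemma φ_dist (i : Fin 8) (x y : ℝ) : |φ i x - φ i y| = 2 / 3 * |x - y| := by
  unfold φ
  split_ifs
  · rw [show 18 - 2 / 3 * x - (18 - 2 / 3 * y) = -(2 / 3 * (x - y)) by ring, abs_neg, abs_mul]
    norm_num
  · rw [show 2 / 3 * x + i - (2 / 3 * y + i) = 2 / 3 * (x - y) by ring, abs_mul]
    norm_num

lemma φ_mem (i : Fin 8) {x : ℝ} (h : x ∈ Icc (0 : ℝ) 18) : φ i x ∈ Icc (0 : ℝ) 18 := by
  obtain ⟨h1, h2⟩ := h
  fin_cases i <;> simp [φ] <;> constructor <;> linarith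

lemma word_dist (a : List (Fin 8)) (x y : ℝ) :
    |word φ a x - word φ a y| = (2 / 3) ^ a.length * |x - y| := by
  induction a with
  | nil => simp [word]
  | cons i a ih =>
    show |φ i (word φ a x) - φ i (word φ a y)| = _
    rw [φ_dist, ih, List.length_cons, pow_succ]; ring

lemma word_mem (a : List (Fin 8)) {x : ℝ} (h : x ∈ Icc (0 : ℝ) 18) : word φ a x ∈ Icc (0 : ℝ) 18 := by
  induction a with
  | nil => exact h
  | cons i a ih => exact φ_mem i ih

lemma word_diam (a : List (Fin 8)) :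
    Metric.diam (word φ a '' Icc 0 18) = (2 / 3) ^ a.length * 18 := by
  refine le_antisymm (Metric.diam_le_of_forall_dist_le (by positivity) ?_) ?_
  · rintro _ ⟨x, hx, rfl⟩ _ ⟨y, hy, rfl⟩
    rw [Real.dist_eq, word_dist]
    gcongr
    exact abs_le.2 ⟨by linarith [hx.1, hy.2], by linarith [hx.2, hy.1]⟩
  · have := Metric.dist_le_diam_of_mem (s := word φ a '' Icc 0 18) ((Metric.isBounded_Icc 0 18).subset
      (by rintro _ ⟨x, hx, rfl⟩; exact word_mem a hx)) ⟨18, by simp, rfl⟩ ⟨0, by simp, rfl⟩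
    rw [Real.dist_eq, word_dist] at this
    simpa using this

lemma word_snoc (a : List (Fin 8)) (i : Fin 8) (x : ℝ) : word φ (a ++ [i]) x = word φ a (φ i x) := by
  induction a with
  | nil => rfl
  | cons j a ih => exact congrArg (φ j) ih

lemma rep (n : ℕ) : ∀ m : ℤ, 4 * 3 ^ n - 4 * 2 ^ n ≤ m → m ≤ 6 * 3 ^ n → ∃ a : List (Fin 8),
    a.length = n + 1 ∧ ∀ x, word φ a x = (2 / 3) ^ (n + 1) * x + m / 3 ^ n := by
  induction n with
  | zero =>
    intro m h1 h2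
    simp only [pow_zero] at h1 h2
    refine ⟨[⟨m.toNat, by omega⟩], rfl, fun x => ?_⟩
    have : (⟨m.toNat, by omega⟩ : Fin 8) ≠ 7 := fun e => by
      have := congrArg Fin.val e
      simp only [Fin.isValue, Fin.coe_ofNat_eq_mod] at this
      omega
    show φ _ x = _
    rw [φ, if_neg this, ← Int.cast_natCast, Int.toNat_of_nonneg (by omega)]
    simp
  | succ n ih =>
    intro m h1 h2
    have h3 : (2 : ℤ) ^ (n + 1) % 3 = 1 ∨ (2 : ℤ) ^ (n + 1) % 3 = 2 := by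
      have : ¬ (3 : ℤ) ∣ 2 ^ (n + 1) := fun h => absurd (Int.prime_three.dvd_of_dvd_pow h) (by norm_num)
      omega
    have h4 : (0 : ℤ) < 2 ^ n := by positivity
    obtain ⟨t, k, ht, hk⟩ : ∃ (t : Fin 8) (k : ℤ), (t : ℕ) ≤ 2 ∧ m = t * 2 ^ (n + 1) + 3 * k := by
      have : m % 3 = 0 ∨ (m - 2 ^ (n + 1)) % 3 = 0 ∨ (m - 2 * 2 ^ (n + 1)) % 3 = 0 := by omega
      rcases this with h | h | h
      · exact ⟨0, m / 3, by simp, by simp; omega⟩
      · exact ⟨1, (m - 2 ^ (n + 1)) / 3, by simp, by simp; omega⟩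
      · exact ⟨2, (m - 2 * 2 ^ (n + 1)) / 3, by simp, by simp; omega⟩
    have h5 : ((t : ℕ) : ℤ) ≤ 2 := by exact_mod_cast ht
    have h6 : (0 : ℤ) ≤ (t : ℕ) := by positivity
    rw [pow_succ, pow_succ] at h1
    rw [pow_succ] at h2
    obtain ⟨a, ha, h⟩ := ih k (by rw [pow_succ] at hk; nlinarith) (by rw [pow_succ] at hk; nlinarith)
    refine ⟨a ++ [t], by simp [ha], fun x => ?_⟩
    rw [word_snoc, h, φ, if_neg (by rintro rfl; simp at ht), hk, div_pow, div_pow]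
    push_cast
    field_simp
    ring

def Good (x : ℝ) : Prop :=
  ∃ C : ℝ, ∀ N, ∃ a : List (Fin 8), N ≤ a.length ∧ |x - word φ a 0| ≤ C * (1 / 3) ^ a.length

lemma Good.map {x : ℝ} (h : Good x) (i : Fin 8) : Good (φ i x) := by
  obtain ⟨C, h⟩ := h
  refine ⟨2 * C, fun N => ?_⟩
  obtain ⟨a, h1, h2⟩ := h N
  refine ⟨i :: a, h1.trans (Nat.le_succ _), ?_⟩
  show |φ i x - φ i (word φ a 0)| ≤ _
  rw [φ_dist, List.length_cons, pow_succ]
  linarith

lemma good0 : Good 0 := ⟨0, fun N => ⟨List.replicate N 0, by simp, by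
  have : word φ (List.replicate N 0) 0 = 0 := by
    induction N with
    | zero => rfl
    | succ n ih =>
      show φ 0 (word φ (List.replicate n 0) 0) = 0
      simp [ih, φ]
  simp [this]⟩⟩

lemma good1 {x : ℝ} (h1 : 4 ≤ x) (h2 : x ≤ 6) : Good x := ⟨3, fun n => by
  have h3 : (0 : ℝ) < 3 ^ n := by positivity
  obtain ⟨a, ha, h⟩ := rep n ⌊x * 3 ^ n⌋ (Int.le_floor.2 (by
    push_cast
    nlinarith [(by positivity : (0 : ℝ) < 2 ^ n)])) (by
    rw [← @Int.cast_le ℝ]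
    push_cast
    nlinarith [Int.floor_le (x * 3 ^ n)])
  refine ⟨a, by omega, ?_⟩
  rw [h, ha, mul_zero, zero_add, show x - ⌊x * 3 ^ n⌋ / 3 ^ n = Int.fract (x * 3 ^ n) / 3 ^ n by
    rw [Int.fract]; field_simp, abs_of_nonneg (div_nonneg (Int.fract_nonneg _) h3.le),
    show (3 : ℝ) * (1 / 3) ^ (n + 1) = 1 / 3 ^ n by rw [pow_succ, one_div_pow]; ring]
  exact div_le_div_of_nonneg_right (Int.fract_lt_one _).le h3.le⟩

lemma good2 (j : ℕ) : ∀ x : ℝ, 4 * (2 / 3) ^ j ≤ x → x ≤ 6 → Good x := by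
  induction j with
  | zero => exact fun x h1 => good1 (by simpa using h1)
  | succ j ih =>
    intro x h1 h2
    rcases le_total 4 x with h | h
    · exact good1 h h2
    · rw [pow_succ] at h1
      convert (ih (3 / 2 * x) (by linarith) (by linarith)).map 0 using 1
      simp [φ]; ring

lemma good3 {x : ℝ} (h1 : 0 ≤ x) (h2 : x ≤ 6) : Good x := by
  rcases h1.eq_or_lt with rfl | h
  · exact good0
  · obtain ⟨j, hj⟩ := exists_pow_lt_of_lt_one (by positivity : 0 < x / 4) (by norm_num : (2 / 3 : ℝ) < 1)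
    exact good2 j x (by linarith) h2

lemma good4 {b : ℝ} (H : ∀ x, 0 ≤ x → x ≤ b → Good x) (x : ℝ) (h1 : 0 ≤ x) (h2 : x ≤ 2 / 3 * b + 6) :
    Good x := by
  rcases le_total x 6 with h | h
  · exact good3 h1 h
  · convert (H (3 / 2 * (x - 6)) (by linarith) (by linarith)).map 6 using 1
    simp [φ]; ring

lemma good {x : ℝ} (h : x ∈ Icc (0 : ℝ) 18) : Good x := by
  have H := good4 (good4 fun x => good3)
  rcases le_total x 12 with e | e
  · exact H x h.1 (by linarith)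
  · convert (H (3 / 2 * (18 - x)) (by linarith [h.2]) (by linarith)).map 7 using 1
    simp [φ]; ring

theorem result : ∃ (l : ℕ) (φ : Fin l → ℝ → ℝ) (X : Set ℝ) (z s : ℝ), 2 ≤ l ∧
    (∀ i, Function.Injective (φ i) ∧ ∃ K, ContractingWith K (φ i)) ∧
    IsCompact X ∧ X.Nontrivial ∧ X = ⋃ i, φ i '' X ∧ z ∈ X ∧ 1 < s ∧ W φ X s z = X := by
  refine ⟨8, φ, Icc 0 18, 0, 2, by norm_num, fun i => ⟨fun x y h => ?_, 2 / 3, by norm_num,
    LipschitzWith.of_dist_le_mul fun x y => ?_⟩, isCompact_Icc,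
    ⟨0, by simp, 1, by simp, by simp⟩, Subset.antisymm (fun x hx => ?_) ?_, by simp, one_lt_two,
    Subset.antisymm (fun x hx => ?_) fun x hx => ?_⟩
  · have := φ_dist i x y
    rw [h, sub_self, abs_zero] at this
    exact sub_eq_zero.1 (abs_eq_zero.1 (by linarith))
  · simp [Real.dist_eq, φ_dist]
  · rcases le_total x 12 with e | e
    · exact mem_iUnion.2 ⟨0, 3 / 2 * x, ⟨by linarith [hx.1], by linarith⟩, by simp [φ]; ring⟩
    · exact mem_iUnion.2 ⟨7, 3 / 2 * (18 - x), ⟨by linarith [hx.2], by linarith⟩, by simp [φ]; ring⟩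
  · rintro _ ⟨_, ⟨i, rfl⟩, x, hx, rfl⟩
    exact φ_mem i hx
  · rw [← isClosed_Icc.closure_eq, Metric.mem_closure_iff]
    intro ε hε
    obtain ⟨n, hn⟩ := exists_pow_lt_of_lt_one (by positivity : 0 < ε / 324) (by norm_num : (2 / 3 : ℝ) < 1)
    obtain ⟨a, h1, h2⟩ := hx.exists_notMem_finite (List.finite_length_lt (Fin 8) n)
    refine ⟨_, word_mem a (x := 0) (by simp), lt_of_le_of_lt h1 ?_⟩
    have h3 : (2 / 3 : ℝ) ^ a.length ≤ (2 / 3) ^ n :=
      pow_le_pow_of_le_one (by norm_num) (by norm_num) (not_lt.1 h2)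
    have h4 : (2 / 3 : ℝ) ^ a.length ≤ 1 := pow_le_one₀ (by norm_num) (by norm_num)
    have h5 : (0 : ℝ) < (2 / 3 : ℝ) ^ a.length := by positivity
    rw [word_diam, Real.rpow_two]
    nlinarith
  · obtain ⟨C, h⟩ := good hx
    obtain ⟨n, hn⟩ := pow_unbounded_of_one_lt C (by norm_num : (1 : ℝ) < 4 / 3)
    refine Infinite.of_image List.length (infinite_of_forall_exists_gt fun N => ?_)
    obtain ⟨a, h1, h2⟩ := h (n + N + 1)
    refine ⟨_, ⟨a, h2.trans ?_, rfl⟩, by omega⟩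
    have h3 : (4 / 3 : ℝ) ^ n ≤ (4 / 3) ^ a.length := pow_le_pow_right₀ (by norm_num) (by omega)
    have h4 : ((2 / 3 : ℝ) ^ a.length) ^ 2 = (4 / 3) ^ a.length * (1 / 3) ^ a.length := by
      rw [← pow_mul, mul_comm, pow_mul, ← mul_pow]; norm_num
    rw [word_diam, Real.rpow_two, mul_pow, h4]
    have h5 : (0 : ℝ) < (1 / 3 : ℝ) ^ a.length := by positivity
    have h6 : (0 : ℝ) < (4 / 3 : ℝ) ^ a.length := by positivity
    nlinarith [mul_le_mul_of_nonneg_right (hn.le.trans h3) h5.le]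

end Pool.Agent.Results.MP_521650_an.Everything
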